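import Pool.Agent.H15.TG.Targets

/-!
The data of the two primes (MP_51eb24_ag): row `TWB` of the board `tga_modules`.
-/

set_option autoImplicit false

namespace Pool.Agent.H40.TG

open MvPolynomial Pool.Agent.H2.ST Pool.Agent.H15.TG

/-- the value of a weight on the derivatives -/
noncomputable def Lw {k : Type} [Field k] {m d : ℕ} (y : Fin d → Pol k m) (χ : Fin d → ℤ) :
    Pol k m := ∑ j, ((χ j : ℤ) : k) • y j

theorem Lw_add {k : Type} [Field k] {m d : ℕ} (y : Fin d → Pol k m) (χ χ' : Fin d → ℤ) :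
    Lw y (χ + χ') = Lw y χ + Lw y χ' := by
  unfold Lw
  rw [← Finset.sum_add_distrib]
  refine Finset.sum_congr rfl fun j _ => ?_
  rw [Pi.add_apply, Int.cast_add, add_smul]

theorem Lw_pow {k : Type} [Field k] {m d : ℕ} (y : Fin d → Pol k m) (ψ : Fin d → ℤ) (a b : ℕ) :
    Lw y (a • ψ + b • (-ψ)) = ((((a : ℤ) - b : ℤ)) : k) • Lw y ψ := by
  unfold Lw
  rw [Finset.smul_sum]
  refine Finset.sum_congr rfl fun j _ => ?_
  rw [smul_smul]
  have e1 : (a • ψ + b • (-ψ)) j = ((a : ℤ) - b) * ψ j := by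
    rw [Pi.add_apply, Pi.smul_apply, Pi.smul_apply, Pi.neg_apply, nsmul_eq_mul, nsmul_eq_mul]
    ring
  rw [e1, Int.cast_mul]

theorem pf_TWB (hLZC : T_LZC) (hFAX : T_FAX) (hCFC : T_CFC) (hCOC : T_COC) (hDVR : T_DVR)
    (hFAC : T_FAC) : T_TWB := by
  intro k _ _ _ m d W K H f h ψ π σ y hψ0 hπ hπC hπW hσ hσC hσW hsp hdv hy0
  have hπ0 : π ≠ 0 := hπ.ne_zero
  have hσ0 : σ ≠ 0 := hσ.ne_zero
  have hfd : Fd W K H f := h.toFd
  have hgr : Gr W := h.toGr
  set q : Pol k m := Lw y ψ with hq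
  have hCK : ∀ g ∈ Cf K f, g ∈ K := fun g hg => (mem_Cf.1 hg).1
  -- q is an invariant
  have hqC : q ∈ Cf K f := by
    rw [hq]
    unfold Lw
    exact Subalgebra.sum_mem _ fun j _ => Subalgebra.smul_mem _ (hdv.1 j).1 _
  have hqW : q ∈ W 0 := by
    rw [hq]
    unfold Lw
    exact Submodule.sum_mem _ fun j _ => Submodule.smul_mem _ _ (hdv.1 j).2
  have hqb : br π σ = -q := by
    have e1 := hdv.2 ψ π hπC hπW
    rw [br_mul, br_self, mul_zero, add_zero] at e1
    have e2 : π * br π σ = π * (-q) := by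
      rw [e1, mul_neg]
      rfl
    exact mul_left_cancel₀ hπ0 e2
  -- the decomposition
  have hdec : ∀ (χ : Fin d → ℤ) (g : Pol k m), g ∈ Cf K f → g ∈ W χ → g ≠ 0 →
      ∃ (a b : ℕ) (g' : Pol k m), g = π ^ a * σ ^ b * g' ∧
        Lw y χ = ((((a : ℤ) - b : ℤ)) : k) • q := by
    intro χ g hgC hgW hg0
    obtain ⟨a, g1, h1, h2⟩ := WfDvdMonoid.max_power_factor hg0 hπ.irreducible
    have hg1 : g1 ≠ 0 := by
      rintro rfl
      exact hg0 (by rw [h2, mul_zero])
    obtain ⟨b, g2, h3, h4⟩ := WfDvdMonoid.max_power_factor hg1 hσ.irreducible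
    have hg2 : g2 ≠ 0 := by
      rintro rfl
      exact hg1 (by rw [h4, mul_zero])
    have he : g = (π ^ a * σ ^ b) * g2 := by rw [h2, h4]; ring
    have hg2C : g2 ∈ Cf K f := (hCFC k m d W K H f hfd (π ^ a * σ ^ b) g2 (he ▸ hg0) (he ▸ hgC)).2
    obtain ⟨θ, χ', hθ, hχ', hs⟩ := hFAC k (Pol k m) (Fin d → ℤ) W hgr χ (π ^ a * σ ^ b) g2
      (he ▸ hgW) (he ▸ hg0)
    have hpw : π ^ a * σ ^ b ∈ W (a • ψ + b • (-ψ)) :=
      hgr.mul _ _ _ _ (pow_mem_gr hgr hπW a) (pow_mem_gr hgr hσW b)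
    have hne : π ^ a * σ ^ b ≠ 0 := mul_ne_zero (pow_ne_zero _ hπ0) (pow_ne_zero _ hσ0)
    have hθ' : θ = a • ψ + b • (-ψ) := wt_uniq hgr hθ hpw hne
    have hπg2 : ¬ π ∣ g2 := fun hd => h1 (by rw [h4]; exact Dvd.dvd.mul_left hd _)
    have hL0 : Lw y χ' = 0 := by
      refine hLZC k m d W K H f h ψ π (π * σ) y hψ0 hπ hπC hπW hsp hdv χ' g2 hg2C hχ' hg2 ?_
      intro ρ hρ hρx hρg
      rcases hρ.dvd_or_dvd hρx with hc | hc
      · exact hπg2 ((hρ.irreducible.associated_of_dvd hπ.irreducible hc).symm.dvd.trans hρg)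
      · exact h3 ((hρ.irreducible.associated_of_dvd hσ.irreducible hc).symm.dvd.trans hρg)
    refine ⟨a, b, g2, he, ?_⟩
    rw [← hs, Lw_add, hL0, add_zero, hθ', Lw_pow]
  -- q ≠ 0
  have hq0 : q ≠ 0 := by
    intro hqz
    obtain ⟨j0, hj0⟩ := hy0
    apply hj0
    ext α
    have hall : ∀ χ, Oc W K χ → ∑ j, coeff α (y j) * ((χ j : ℤ) : k) = 0 := by
      intro χ hχ
      obtain ⟨g, hgC, hgW, hg0⟩ := hCOC k m d W K H f hfd χ hχ
      obtain ⟨a, b, g', _, he⟩ := hdec χ g hgC hgW hg0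
      rw [hqz, smul_zero] at he
      have h1 : coeff α (Lw y χ) = 0 := by rw [he, coeff_zero]
      unfold Lw at h1
      rw [coeff_sum] at h1
      rw [← h1]
      refine Finset.sum_congr rfl fun j _ => ?_
      rw [coeff_smul, smul_eq_mul, mul_comm]
    have := h.sp (fun j => coeff α (y j)) hall
    rw [coeff_zero]
    exact congrFun this j0
  have hqbr : br π σ ≠ 0 := by
    rw [hqb]
    exact neg_ne_zero.2 hq0
  have hdeg : q.totalDegree + 2 ≤ (π * σ).totalDegree := by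
    have h1 := deg_br π σ hqbr
    rw [hqb] at h1
    rw [totalDegree_mul_of_isDomain hπ0 hσ0]
    rw [totalDegree_neg] at h1
    exact h1
  have hnd : ¬ π * σ ∣ q := by
    rintro ⟨r, hr⟩
    have hr0 : r ≠ 0 := by
      rintro rfl
      exact hq0 (by rw [hr, mul_zero])
    have h1 : q.totalDegree = (π * σ).totalDegree + r.totalDegree := by
      conv_lhs => rw [hr]
      exact totalDegree_mul_of_isDomain (mul_ne_zero hπ0 hσ0) hr0
    omega
  have hsσ : Spx W K f σ (π * σ) := by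
    obtain ⟨_, θ, _, _, h3⟩ := hFAX k m d W K H f h ψ π (π * σ) σ hψ0 hπ hπC hπW hsp hσ
      (Dvd.intro_left π rfl)
    exact h3
  -- the function l
  have hex : ∀ χ, ∃ n : ℤ, Oc W K χ → Lw y χ = (n : k) • q := by
    intro χ
    by_cases hχ : Oc W K χ
    · obtain ⟨g, hgC, hgW, hg0⟩ := hCOC k m d W K H f hfd χ hχ
      obtain ⟨a, b, g', _, he⟩ := hdec χ g hgC hgW hg0
      exact ⟨(a : ℤ) - b, fun _ => he⟩
    · exact ⟨0, fun hc => absurd hc hχ⟩
  choose l hl using hex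
  have huq : ∀ n n' : ℤ, (n : k) • q = (n' : k) • q → n = n' := by
    intro n n' hn
    have h1 : ((n : k) - (n' : k)) • q = 0 := by rw [sub_smul, hn, sub_self]
    rcases smul_eq_zero.1 h1 with h2 | h2
    · exact_mod_cast sub_eq_zero.1 h2
    · exact absurd h2 hq0
  have hoc : ∀ χ (g : Pol k m), g ∈ Cf K f → g ∈ W χ → g ≠ 0 → Oc W K χ :=
    fun χ g h1 h2 h3 => ⟨g, hCK g h1, h2, h3⟩
  refine ⟨q, l, ?_⟩
  exact
    { toGd := h
      pp := hπ
      pσ := hσ
      hp := hπC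
      hσ := hσC
      wp := hπW
      wσ := hσW
      ψ0 := hψ0
      sp' := hsp
      sσ := hsσ
      dv := hdv
      y0 := hy0
      q0 := ⟨hqC, hqW⟩
      qb := hqb
      qp := fun hd => hnd (hsp.2.2.2.2 q hqC hqW hd)
      qσ := fun hd => hnd (hsσ.2.2.2.2 q hqC hqW hd)
      la := by
        intro χ χ' hχ hχ'
        apply huq
        obtain ⟨g, hg1, hg2, hg3⟩ := hχ
        obtain ⟨g', hg1', hg2', hg3'⟩ := hχ'
        rw [← hl (χ + χ') ⟨g * g', K.mul_mem hg1 hg1', hgr.mul _ _ _ _ hg2 hg2',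
          mul_ne_zero hg3 hg3'⟩, Lw_add, hl χ ⟨g, hg1, hg2, hg3⟩, hl χ' ⟨g', hg1', hg2', hg3'⟩,
          Int.cast_add, add_smul]
      l1 := by
        apply huq
        rw [← hl ψ (hoc ψ π hπC hπW hπ0), Int.cast_one, one_smul]
      ll := fun χ hχ => hl χ hχ
      ln := by
        intro χ g hgC hgW hlt
        by_cases hg0 : g = 0
        · rw [hg0]
          exact dvd_zero _
        obtain ⟨a, b, g', h1, h2⟩ := hdec χ g hgC hgW hg0
        have h3 : l χ = (a : ℤ) - b := by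
          apply huq
          rw [← hl χ (hoc χ g hgC hgW hg0), h2]
        have hb : b ≠ 0 := by omega
        rw [h1]
        exact Dvd.dvd.mul_right (Dvd.dvd.mul_left (dvd_pow_self σ hb) _) _
      lp := by
        intro χ g hgC hgW hlt
        by_cases hg0 : g = 0
        · rw [hg0]
          exact dvd_zero _
        obtain ⟨a, b, g', h1, h2⟩ := hdec χ g hgC hgW hg0
        have h3 : l χ = (a : ℤ) - b := by
          apply huq
          rw [← hl χ (hoc χ g hgC hgW hg0), h2]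
        have ha : a ≠ 0 := by omega
        rw [h1]
        exact Dvd.dvd.mul_right (Dvd.dvd.mul_right (dvd_pow_self π ha) _) _ }

end Pool.Agent.H40.TG
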